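import Pool.Agent.H37.UMD.Stmts2

set_option autoImplicit false

namespace Pool.UMD

open Set Filter Topology

/-- general interpolation with weights `w0`, `w1` -/
noncomputable def GSM_op (w0 w1 : ℝ → ℝ) (u : ℤ → ℝ) (t : ℝ) : ℝ :=
  u ⌊t⌋ * w0 (Int.fract t) + u (⌊t⌋ + 1) * w1 (Int.fract t)

/-- compatibility of the weights at the ends -/
def GSM_cp (w0 w1 : ℝ → ℝ) : Prop := w0 1 = 0 ∧ w1 0 = 0 ∧ w0 0 = w1 1

theorem GSM_op_Icc {w0 w1 : ℝ → ℝ} (h : GSM_cp w0 w1) (u : ℤ → ℝ) {n : ℤ} {t : ℝ}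
    (h1 : (n : ℝ) ≤ t) (h2 : t ≤ n + 1) :
    GSM_op w0 w1 u t = u n * w0 (t - n) + u (n + 1) * w1 (t - n) := by
  rcases h2.lt_or_eq with h3 | h3
  · have : ⌊t⌋ = n := Int.floor_eq_iff.2 ⟨h1, h3⟩
    unfold GSM_op
    rw [Int.fract, this]
  · have h4 : ⌊t⌋ = n + 1 := by
      rw [h3]
      have : ((n : ℝ) + 1) = ((n + 1 : ℤ) : ℝ) := by push_cast; rfl
      rw [this, Int.floor_intCast]
    have h5 : Int.fract t = 0 := by
      rw [Int.fract, h4, h3]; push_cast; ring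
    unfold GSM_op
    rw [h5, h4, h3, h.2.1]
    have h6 : (n : ℝ) + 1 - n = 1 := by ring
    rw [h6, h.1, h.2.2]
    ring

theorem GSM_op_cont {w0 w1 : ℝ → ℝ} (h : GSM_cp w0 w1) (hw0 : Continuous w0)
    (hw1 : Continuous w1) (u : ℤ → ℝ) : Continuous (GSM_op w0 w1 u) := by
  rw [continuous_iff_continuousAt]
  intro a
  rw [continuousAt_iff_continuous_left_right]
  have key : ∀ (n : ℤ), ContinuousAt (fun t : ℝ => u n * w0 (t - n) + u (n + 1) * w1 (t - n)) a := by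
    intro n
    exact (by fun_prop : Continuous (fun t : ℝ => u n * w0 (t - n) + u (n + 1) * w1 (t - n))).continuousAt
  constructor
  · have h1 : ((⌈a⌉ - 1 : ℤ) : ℝ) < a := by
      have := Int.ceil_lt_add_one a
      push_cast; linarith
    have h2 : a ≤ ((⌈a⌉ - 1 : ℤ) : ℝ) + 1 := by
      have := Int.le_ceil a
      push_cast; linarith
    refine ((key (⌈a⌉ - 1)).continuousWithinAt).congr_of_eventuallyEq ?_
      (GSM_op_Icc h u h1.le h2)
    filter_upwards [Ioc_mem_nhdsLE h1] with s hs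
    exact GSM_op_Icc h u hs.1.le (hs.2.trans h2)
  · have h1 : ((⌊a⌋ : ℤ) : ℝ) ≤ a := Int.floor_le a
    have h2 : a < (⌊a⌋ : ℝ) + 1 := Int.lt_floor_add_one a
    refine ((key ⌊a⌋).continuousWithinAt).congr_of_eventuallyEq ?_
      (GSM_op_Icc h u h1 h2.le)
    filter_upwards [Ico_mem_nhdsGE h2] with s hs
    exact GSM_op_Icc h u (h1.trans hs.1) hs.2.le

theorem GSM_op_der {w0 w1 v0 v1 : ℝ → ℝ} (h : GSM_cp w0 w1) (h' : GSM_cp v0 v1)
    (hw0 : ∀ t, HasDerivAt w0 (v0 t) t) (hw1 : ∀ t, HasDerivAt w1 (v1 t) t) (u : ℤ → ℝ) (a : ℝ) :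
    HasDerivAt (GSM_op w0 w1 u) (GSM_op v0 v1 u a) a := by
  have key : ∀ (n : ℤ), HasDerivAt (fun t : ℝ => u n * w0 (t - n) + u (n + 1) * w1 (t - n))
      (u n * v0 (a - n) + u (n + 1) * v1 (a - n)) a := by
    intro n
    have e1 : HasDerivAt (fun t : ℝ => w0 (t - n)) (v0 (a - n)) a :=
      (hw0 (a - n)).comp_sub_const a n
    have e2 : HasDerivAt (fun t : ℝ => w1 (t - n)) (v1 (a - n)) a :=
      (hw1 (a - n)).comp_sub_const a n
    exact (e1.const_mul _).add (e2.const_mul _)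
  have hl : HasDerivWithinAt (GSM_op w0 w1 u) (GSM_op v0 v1 u a) (Iic a) a := by
    have h1 : ((⌈a⌉ - 1 : ℤ) : ℝ) < a := by
      have := Int.ceil_lt_add_one a
      push_cast; linarith
    have h2 : a ≤ ((⌈a⌉ - 1 : ℤ) : ℝ) + 1 := by
      have := Int.le_ceil a
      push_cast; linarith
    rw [GSM_op_Icc h' u h1.le h2]
    refine ((key (⌈a⌉ - 1)).hasDerivWithinAt).congr_of_eventuallyEq ?_
      (GSM_op_Icc h u h1.le h2)
    filter_upwards [Ioc_mem_nhdsLE h1] with s hs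
    exact GSM_op_Icc h u hs.1.le (hs.2.trans h2)
  have hr : HasDerivWithinAt (GSM_op w0 w1 u) (GSM_op v0 v1 u a) (Ici a) a := by
    have h1 : ((⌊a⌋ : ℤ) : ℝ) ≤ a := Int.floor_le a
    have h2 : a < (⌊a⌋ : ℝ) + 1 := Int.lt_floor_add_one a
    rw [GSM_op_Icc h' u h1 h2.le]
    refine ((key ⌊a⌋).hasDerivWithinAt).congr_of_eventuallyEq ?_
      (GSM_op_Icc h u h1 h2.le)
    filter_upwards [Ico_mem_nhdsGE h2] with s hs
    exact GSM_op_Icc h u (h1.trans hs.1) hs.2.le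
  have := hl.union hr
  rwa [Iic_union_Ici, hasDerivWithinAt_univ] at this

/-- point masses -/
def GSM_de (k j : ℤ) : ℝ := if j = k then 1 else 0

theorem GSM_op_sum (w0 w1 : ℝ → ℝ) (u : ℤ → ℝ) (t : ℝ) (S : Finset ℤ) (h1 : ⌊t⌋ ∈ S)
    (h2 : ⌊t⌋ + 1 ∈ S) : GSM_op w0 w1 u t = ∑ k ∈ S, u k * GSM_op w0 w1 (GSM_de k) t := by
  unfold GSM_op GSM_de
  simp only [mul_add, Finset.sum_add_distrib, ite_mul, one_mul, zero_mul, mul_ite, mul_zero]
  rw [Finset.sum_ite_eq, Finset.sum_ite_eq, if_pos h1, if_pos h2]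

theorem GSM_near (a : ℝ) : ∀ᶠ t in 𝓝 a, ⌊t⌋ ∈ Finset.Icc (⌊a⌋ - 1) (⌊a⌋ + 1) ∧
    ⌊t⌋ + 1 ∈ Finset.Icc (⌊a⌋ - 1) (⌊a⌋ + 1) := by
  have h1 : ((⌊a⌋ : ℤ) : ℝ) - 1 < a := by have := Int.floor_le a; linarith
  have h2 : a < (⌊a⌋ : ℝ) + 1 := Int.lt_floor_add_one a
  filter_upwards [Ioo_mem_nhds h1 h2] with t ht
  have e1 : ⌊a⌋ - 1 ≤ ⌊t⌋ := by
    rw [Int.le_floor]; push_cast; exact ht.1.le
  have e2 : ⌊t⌋ < ⌊a⌋ + 1 := by
    rw [Int.floor_lt]; push_cast; exact ht.2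
  rw [Finset.mem_Icc, Finset.mem_Icc]
  omega

/-- two-dimensional interpolation -/
noncomputable def GSM_op2 (w0 w1 v0 v1 : ℝ → ℝ) (F : ℤ → ℤ → ℝ) (x : ℝ × ℝ) : ℝ :=
  GSM_op w0 w1 (fun i => GSM_op v0 v1 (F i) x.2) x.1

theorem GSM_op2_cont {w0 w1 v0 v1 : ℝ → ℝ} (hw : GSM_cp w0 w1) (hv : GSM_cp v0 v1)
    (hw0 : Continuous w0) (hw1 : Continuous w1) (hv0 : Continuous v0) (hv1 : Continuous v1)
    (F : ℤ → ℤ → ℝ) : Continuous (GSM_op2 w0 w1 v0 v1 F) := by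
  rw [continuous_iff_continuousAt]
  intro x
  have h1 : ∀ᶠ y : ℝ × ℝ in 𝓝 x, GSM_op2 w0 w1 v0 v1 F y =
      ∑ k ∈ Finset.Icc (⌊x.1⌋ - 1) (⌊x.1⌋ + 1), GSM_op v0 v1 (F k) y.2 *
        GSM_op w0 w1 (GSM_de k) y.1 := by
    have := (continuous_fst.tendsto x).eventually (GSM_near x.1)
    filter_upwards [this] with y hy
    exact GSM_op_sum w0 w1 _ y.1 _ hy.1 hy.2
  refine ContinuousAt.congr ?_ (h1.mono fun y hy => hy.symm)
  refine Continuous.continuousAt ?_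
  refine continuous_finsetSum _ fun k _ => ?_
  exact ((GSM_op_cont hv hv0 hv1 (F k)).comp continuous_snd).mul
    ((GSM_op_cont hw hw0 hw1 (GSM_de k)).comp continuous_fst)

theorem GSM_op2_der {w0 w1 v0 v1 : ℝ → ℝ} (hw : GSM_cp w0 w1) (hv : GSM_cp v0 v1)
    (hw0 : ∀ t, HasDerivAt w0 (v0 t) t) (hw1 : ∀ t, HasDerivAt w1 (v1 t) t)
    (F : ℤ → ℤ → ℝ) (a b p q t : ℝ) :
    HasDerivAt (fun s : ℝ => GSM_op2 w0 w1 w0 w1 F (a + s * p, b + s * q))
      (p * GSM_op2 v0 v1 w0 w1 F (a + t * p, b + t * q) +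
        q * GSM_op2 w0 w1 v0 v1 F (a + t * p, b + t * q)) t := by
  set S := Finset.Icc (⌊a + t * p⌋ - 1) (⌊a + t * p⌋ + 1) with hS
  have h1 : ∀ᶠ s in 𝓝 t, GSM_op2 w0 w1 w0 w1 F (a + s * p, b + s * q) =
      ∑ k ∈ S, GSM_op w0 w1 (F k) (b + s * q) * GSM_op w0 w1 (GSM_de k) (a + s * p) := by
    have hc : Continuous (fun s : ℝ => a + s * p) := by fun_prop
    have := (hc.tendsto t).eventually (GSM_near (a + t * p))
    filter_upwards [this] with s hs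
    exact GSM_op_sum w0 w1 _ _ _ hs.1 hs.2
  have hmem := (GSM_near (a + t * p)).self_of_nhds
  have e1 : p * GSM_op2 v0 v1 w0 w1 F (a + t * p, b + t * q) +
        q * GSM_op2 w0 w1 v0 v1 F (a + t * p, b + t * q) =
      ∑ k ∈ S, (GSM_op v0 v1 (F k) (b + t * q) * q * GSM_op w0 w1 (GSM_de k) (a + t * p) +
        GSM_op w0 w1 (F k) (b + t * q) * (GSM_op v0 v1 (GSM_de k) (a + t * p) * p)) := by
    unfold GSM_op2
    dsimp only
    rw [GSM_op_sum v0 v1 _ (a + t * p) S hmem.1 hmem.2,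
      GSM_op_sum w0 w1 _ (a + t * p) S hmem.1 hmem.2, Finset.mul_sum, Finset.mul_sum,
      ← Finset.sum_add_distrib]
    refine Finset.sum_congr rfl fun k _ => ?_
    ring
  rw [e1]
  refine HasDerivAt.congr_of_eventuallyEq ?_ h1
  refine HasDerivAt.fun_sum fun k _ => ?_
  have d1 : HasDerivAt (fun s : ℝ => b + s * q) q t := by
    have := ((hasDerivAt_id t).mul_const q).const_add b
    simpa using this
  have d2 : HasDerivAt (fun s : ℝ => a + s * p) p t := by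
    have := ((hasDerivAt_id t).mul_const p).const_add a
    simpa using this
  have d3 : HasDerivAt (fun s : ℝ => GSM_op w0 w1 (F k) (b + s * q))
      (GSM_op v0 v1 (F k) (b + t * q) * q) t :=
    HasDerivAt.comp (h₂ := GSM_op w0 w1 (F k)) (h := fun s : ℝ => b + s * q) t
      (GSM_op_der hw hv hw0 hw1 (F k) (b + t * q)) d1
  have d4 : HasDerivAt (fun s : ℝ => GSM_op w0 w1 (GSM_de k) (a + s * p))
      (GSM_op v0 v1 (GSM_de k) (a + t * p) * p) t :=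
    HasDerivAt.comp (h₂ := GSM_op w0 w1 (GSM_de k)) (h := fun s : ℝ => a + s * p) t
      (GSM_op_der hw hv hw0 hw1 (GSM_de k) (a + t * p)) d2
  exact d3.mul d4

/-- the weights of `ip` and `ip'` -/
noncomputable def GSM_a (s : ℝ) : ℝ := 1 - sst s
noncomputable def GSM_c (s : ℝ) : ℝ := -(6 * s * (1 - s))
noncomputable def GSM_d (s : ℝ) : ℝ := 6 * s * (1 - s)

theorem GSM_ip (u : ℤ → ℝ) (t : ℝ) : ip u t = GSM_op GSM_a sst u t := by
  unfold ip GSM_op GSM_a; ring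

theorem GSM_ip' (u : ℤ → ℝ) (t : ℝ) : ip' u t = GSM_op GSM_c GSM_d u t := by
  unfold ip' GSM_op GSM_c GSM_d; ring

theorem GSM_cpa : GSM_cp GSM_a sst := by
  unfold GSM_cp GSM_a sst; norm_num

theorem GSM_cpc : GSM_cp GSM_c GSM_d := by
  unfold GSM_cp GSM_c GSM_d; norm_num

theorem GSM_ders (t : ℝ) : HasDerivAt sst (GSM_d t) t := by
  have h : HasDerivAt (fun s : ℝ => 3 * s ^ 2 - 2 * s ^ 3) (3 * (2 * t) - 2 * (3 * t ^ 2)) t := by
    have h2 := (hasDerivAt_pow 2 t).const_mul (3 : ℝ)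
    have h3 := (hasDerivAt_pow 3 t).const_mul (2 : ℝ)
    have h4 := h2.fun_sub h3
    have e4 : (3 : ℝ) * (((2 : ℕ) : ℝ) * t ^ (2 - 1)) - 2 * (((3 : ℕ) : ℝ) * t ^ (3 - 1)) =
        3 * (2 * t) - 2 * (3 * t ^ 2) := by norm_num
    rw [e4] at h4
    exact h4
  have e : GSM_d t = 3 * (2 * t) - 2 * (3 * t ^ 2) := by unfold GSM_d; ring
  rw [e]
  exact h

theorem GSM_dera (t : ℝ) : HasDerivAt GSM_a (GSM_c t) t := by
  have := (GSM_ders t).const_sub 1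
  unfold GSM_a GSM_c
  unfold GSM_d at this
  exact this

theorem GSM_ca : Continuous GSM_a := by unfold GSM_a sst; fun_prop
theorem GSM_cs : Continuous sst := by unfold sst; fun_prop
theorem GSM_cc : Continuous GSM_c := by unfold GSM_c; fun_prop
theorem GSM_cd : Continuous GSM_d := by unfold GSM_d; fun_prop

theorem GSM_fo_lt {m : ℕ} (hm : 1 ≤ m) (i : ℤ) : fo m i < m := by
  unfold fo
  have h1 := Int.emod_nonneg i (show (2 * (m : ℤ)) ≠ 0 by omega)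
  have h2 := Int.emod_lt_of_pos i (show 0 < (2 * (m : ℤ)) by omega)
  split_ifs with h
  · omega
  · omega

theorem GSM_fo_per (m : ℕ) (i : ℤ) : fo m (i + 2 * m) = fo m i := by
  unfold fo
  rw [Int.add_emod_right]

/-- consecutive values of the folding differ by at most one -/
theorem GSM_fo_succ {m : ℕ} (hm : 1 ≤ m) (i : ℤ) : fo m (i + 1) = fo m i ∨
    fo m (i + 1) = fo m i + 1 ∨ fo m i = fo m (i + 1) + 1 := by
  unfold fo
  have h1 := Int.emod_nonneg i (show (2 * (m : ℤ)) ≠ 0 by omega)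
  have h2 := Int.emod_lt_of_pos i (show 0 < (2 * (m : ℤ)) by omega)
  have h3 := Int.emod_nonneg (i + 1) (show (2 * (m : ℤ)) ≠ 0 by omega)
  have h4 := Int.emod_lt_of_pos (i + 1) (show 0 < (2 * (m : ℤ)) by omega)
  have h5 : (i + 1) % (2 * (m : ℤ)) = i % (2 * m) + 1 ∨
      ((i + 1) % (2 * (m : ℤ)) = 0 ∧ i % (2 * m) = 2 * m - 1) := by
    have h6 : (i + 1) % (2 * (m : ℤ)) = (i % (2 * m) + 1) % (2 * m) := by
      rw [Int.emod_add_emod]
    rcases lt_or_ge (i % (2 * m) + 1) (2 * (m : ℤ)) with h7 | h7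
    · left
      rw [h6, Int.emod_eq_of_lt (by omega) h7]
    · right
      have h8 : i % (2 * m) + 1 = 2 * m := by omega
      rw [h6, h8]
      exact ⟨Int.emod_self, by omega⟩
  rcases h5 with h5 | ⟨h5, h6⟩
  · rw [h5]
    split_ifs <;> omega
  · rw [h5, h6]
    split_ifs <;> omega

theorem GSM_sst_mem {s : ℝ} (h0 : 0 ≤ s) (h1 : s ≤ 1) : 0 ≤ sst s ∧ sst s ≤ 1 := by
  unfold sst
  constructor
  · have : 3 * s ^ 2 - 2 * s ^ 3 = s ^ 2 * (3 - 2 * s) := by ring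
    rw [this]
    exact mul_nonneg (sq_nonneg s) (by linarith)
  · have : 1 - (3 * s ^ 2 - 2 * s ^ 3) = (1 - s) ^ 2 * (1 + 2 * s) := by ring
    have h2 : 0 ≤ (1 - s) ^ 2 * (1 + 2 * s) := mul_nonneg (sq_nonneg _) (by linarith)
    linarith

theorem GSM_ip_le {u : ℤ → ℝ} {M : ℝ} (hu : ∀ i, |u i| ≤ M) (t : ℝ) : |ip u t| ≤ M := by
  obtain ⟨h0, h1⟩ := GSM_sst_mem (Int.fract_nonneg t) (Int.fract_lt_one t).le
  have e : ip u t = (1 - sst (Int.fract t)) * u ⌊t⌋ + sst (Int.fract t) * u (⌊t⌋ + 1) := by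
    unfold ip; ring
  rw [e]
  have a1 := abs_le.1 (hu ⌊t⌋)
  have a2 := abs_le.1 (hu (⌊t⌋ + 1))
  rw [abs_le]
  constructor
  · nlinarith [mul_le_mul_of_nonneg_left a1.1 (sub_nonneg.2 h1), mul_le_mul_of_nonneg_left a2.1 h0]
  · nlinarith [mul_le_mul_of_nonneg_left a1.2 (sub_nonneg.2 h1), mul_le_mul_of_nonneg_left a2.2 h0]

theorem GSM_ip'_le {u : ℤ → ℝ} {M : ℝ} (hu : ∀ i, |u (i + 1) - u i| ≤ M) (t : ℝ) :
    |ip' u t| ≤ 2 * M := by
  have h0 := Int.fract_nonneg t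
  have h1 := Int.fract_lt_one t
  have hM : 0 ≤ M := (abs_nonneg _).trans (hu 0)
  unfold ip'
  rw [abs_mul]
  have h2 : |6 * Int.fract t * (1 - Int.fract t)| ≤ 2 := by
    rw [abs_of_nonneg (by nlinarith)]
    nlinarith [sq_nonneg (Int.fract t - 1 / 2)]
  calc |u (⌊t⌋ + 1) - u ⌊t⌋| * |6 * Int.fract t * (1 - Int.fract t)| ≤ M * 2 :=
        mul_le_mul (hu _) h2 (abs_nonneg _) hM
    _ = 2 * M := by ring

theorem GSM_ip_sub (u v : ℤ → ℝ) (t : ℝ) : ip u t - ip v t = ip (fun i => u i - v i) t := by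
  unfold ip; ring

/-- periodicity in one variable -/
theorem GSM_op_per (w0 w1 : ℝ → ℝ) (u : ℤ → ℝ) (m : ℕ) (hu : ∀ i, u (i + 2 * m) = u i) (t : ℝ) :
    GSM_op w0 w1 u (t + 2 * m) = GSM_op w0 w1 u t := by
  have e : t + 2 * m = t + ((2 * m : ℤ) : ℝ) := by push_cast; rfl
  unfold GSM_op
  rw [e, Int.floor_add_intCast, Int.fract_add_intCast, hu]
  have : ⌊t⌋ + 2 * (m : ℤ) + 1 = (⌊t⌋ + 1) + 2 * m := by ring
  rw [this, hu]

theorem GSM_per (w0 w1 v0 v1 : ℝ → ℝ) (m : ℕ) (F : ℕ → ℕ → ℝ) (f : ℝ × ℝ → ℝ)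
    (hf : ∀ x, f x = GSM_op2 w0 w1 v0 v1 (fun i j => F (fo m i) (fo m j))
      (x.1 - 1 / 2, x.2 - 1 / 2)) : Per m f := by
  intro x
  constructor
  · rw [hf, hf]
    unfold GSM_op2
    dsimp only
    have e : x.1 + 2 * m - 1 / 2 = (x.1 - 1 / 2) + 2 * m := by ring
    rw [e, GSM_op_per]
    intro i
    rw [GSM_fo_per]
  · rw [hf, hf]
    unfold GSM_op2
    dsimp only
    have e : x.2 + 2 * m - 1 / 2 = (x.2 - 1 / 2) + 2 * m := by ring
    rw [e]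
    congr 1
    funext i
    rw [GSM_op_per]
    intro j
    rw [GSM_fo_per]

theorem GSM_G (m : ℕ) (F : ℕ → ℕ → ℝ) (x : ℝ × ℝ) : GG m F x =
    GSM_op2 GSM_a sst GSM_a sst (fun i j => F (fo m i) (fo m j)) (x.1 - 1 / 2, x.2 - 1 / 2) := by
  unfold GG GSM_op2
  simp only [GSM_ip]

theorem GSM_G1 (m : ℕ) (F : ℕ → ℕ → ℝ) (x : ℝ × ℝ) : GG1 m F x =
    GSM_op2 GSM_c GSM_d GSM_a sst (fun i j => F (fo m i) (fo m j)) (x.1 - 1 / 2, x.2 - 1 / 2) := by
  unfold GG1 GSM_op2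
  simp only [GSM_ip, GSM_ip']

theorem GSM_G2 (m : ℕ) (F : ℕ → ℕ → ℝ) (x : ℝ × ℝ) : GG2 m F x =
    GSM_op2 GSM_a sst GSM_c GSM_d (fun i j => F (fo m i) (fo m j)) (x.1 - 1 / 2, x.2 - 1 / 2) := by
  unfold GG2 GSM_op2
  simp only [GSM_ip, GSM_ip']

theorem GSM_step {m : ℕ} (hm : 1 ≤ m) {g : ℕ → ℝ} {Δ : ℝ} (hΔ : 0 ≤ Δ)
    (h : ∀ i, i + 1 < m → |g (i + 1) - g i| ≤ Δ) (i : ℤ) : |g (fo m (i + 1)) - g (fo m i)| ≤ Δ := by
  have h1 := GSM_fo_lt hm i
  have h2 := GSM_fo_lt hm (i + 1)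
  rcases GSM_fo_succ hm i with h3 | h3 | h3
  · rw [h3]; simpa using hΔ
  · rw [h3] at h2 ⊢
    exact h _ h2
  · rw [h3] at h1 ⊢
    rw [abs_sub_comm]
    exact h _ h1

theorem sGsm : SGsm := by
  intro m F Δ hm hΔ hF0 hF1 hF2
  have hmR : (1 : ℝ) ≤ m := by exact_mod_cast hm
  have hT : 2 * Δ ≤ 4 * m * Δ := by nlinarith
  have hi0 : ∀ i, i < m → |F i 0| ≤ i * Δ := by
    intro i
    induction i with
    | zero => intro _; rw [hF0]; simp
    | succ i ih =>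
      intro hi
      have h1 := ih (by omega)
      have h2 := hF1 i 0 hi (by omega)
      have : F (i + 1) 0 = F i 0 + (F (i + 1) 0 - F i 0) := by ring
      rw [this]
      refine (abs_add_le _ _).trans ?_
      push_cast
      linarith
  have hij : ∀ i j, i < m → j < m → |F i j| ≤ (i + j) * Δ := by
    intro i j hi
    induction j with
    | zero => intro _; simpa using hi0 i hi
    | succ j ih =>
      intro hj
      have h1 := ih (by omega)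
      have h2 := hF2 i j hi hj
      have : F i (j + 1) = F i j + (F i (j + 1) - F i j) := by ring
      rw [this]
      refine (abs_add_le _ _).trans ?_
      push_cast
      linarith
  have hb : ∀ i j : ℤ, |F (fo m i) (fo m j)| ≤ 4 * m * Δ := by
    intro i j
    have h1 := GSM_fo_lt hm i
    have h2 := GSM_fo_lt hm j
    refine (hij _ _ h1 h2).trans ?_
    have h1' : ((fo m i : ℕ) : ℝ) ≤ m := by exact_mod_cast h1.le
    have h2' : ((fo m j : ℕ) : ℝ) ≤ m := by exact_mod_cast h2.le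
    nlinarith
  refine ⟨⟨?_, ?_, ?_, ?_, ?_, ?_, ?_⟩, ?_, ?_, ?_⟩
  · have : GG m F = fun x => GSM_op2 GSM_a sst GSM_a sst (fun i j => F (fo m i) (fo m j))
      (x.1 - 1 / 2, x.2 - 1 / 2) := funext (GSM_G m F)
    rw [this]
    exact (GSM_op2_cont GSM_cpa GSM_cpa GSM_ca GSM_cs GSM_ca GSM_cs _).comp (by fun_prop)
  · have : GG1 m F = fun x => GSM_op2 GSM_c GSM_d GSM_a sst (fun i j => F (fo m i) (fo m j))
      (x.1 - 1 / 2, x.2 - 1 / 2) := funext (GSM_G1 m F)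
    rw [this]
    exact (GSM_op2_cont GSM_cpc GSM_cpa GSM_cc GSM_cd GSM_ca GSM_cs _).comp (by fun_prop)
  · have : GG2 m F = fun x => GSM_op2 GSM_a sst GSM_c GSM_d (fun i j => F (fo m i) (fo m j))
      (x.1 - 1 / 2, x.2 - 1 / 2) := funext (GSM_G2 m F)
    rw [this]
    exact (GSM_op2_cont GSM_cpa GSM_cpc GSM_ca GSM_cs GSM_cc GSM_cd _).comp (by fun_prop)
  · intro x
    unfold GG
    exact GSM_ip_le (fun i => GSM_ip_le (fun j => hb i j) _) _
  · intro x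
    refine le_trans ?_ hT
    unfold GG1
    refine GSM_ip'_le (fun i => ?_) _
    rw [GSM_ip_sub]
    refine GSM_ip_le (fun j => ?_) _
    exact GSM_step hm (g := fun i => F i (fo m j)) hΔ
      (fun i hi => hF1 i (fo m j) hi (GSM_fo_lt hm j)) i
  · intro x
    refine le_trans ?_ hT
    unfold GG2
    refine GSM_ip_le (fun i => ?_) _
    refine GSM_ip'_le (fun j => ?_) _
    exact GSM_step hm (g := fun j => F (fo m i) j) hΔ
      (fun j hj => hF2 (fo m i) j (GSM_fo_lt hm i) hj) j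
  · intro x v t
    have h := GSM_op2_der GSM_cpa GSM_cpc GSM_dera GSM_ders (fun i j => F (fo m i) (fo m j))
      (x.1 - 1 / 2) (x.2 - 1 / 2) v.1 v.2 t
    have e1 : ∀ s : ℝ, (((x + s • v).1 - 1 / 2, (x + s • v).2 - 1 / 2) : ℝ × ℝ) =
        (x.1 - 1 / 2 + s * v.1, x.2 - 1 / 2 + s * v.2) := by
      intro s
      ext
      · simp [Prod.fst_add, Prod.smul_fst]; ring
      · simp [Prod.snd_add, Prod.smul_snd]; ring
    have e2 : (fun s : ℝ => GG m F (x + s • v)) = fun s : ℝ =>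
        GSM_op2 GSM_a sst GSM_a sst (fun i j => F (fo m i) (fo m j))
          (x.1 - 1 / 2 + s * v.1, x.2 - 1 / 2 + s * v.2) := by
      funext s
      rw [GSM_G, e1]
    rw [e2, GSM_G1, GSM_G2, e1]
    exact h
  · exact GSM_per _ _ _ _ m F _ (GSM_G m F)
  · exact GSM_per _ _ _ _ m F _ (GSM_G1 m F)
  · exact GSM_per _ _ _ _ m F _ (GSM_G2 m F)

end Pool.UMD
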